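import Pool.Agent.H48.RN.Stmts3

/-!
# Project RN, module SOL: existence of the solution
-/

set_option autoImplicit false
set_option linter.unusedSectionVars false

namespace Pool.RN

open Polynomial

section SOLser

variable {F : Type} [Field F] [Fintype F]

/-- The `q`-th power of a power series over the field with `q` elements. -/
theorem SOL_pow (f : PowerSeries F) (n : ℕ) :
    PowerSeries.coeff n (f ^ Fintype.card F) =
      if Fintype.card F ∣ n then PowerSeries.coeff (n / Fintype.card F) f else 0 := by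
  have h0 : Fintype.card F ≠ 0 := Fintype.card_ne_zero
  have h1 : f ^ Fintype.card F = PowerSeries.expand (Fintype.card F) h0 f := by
    ext n
    have e1 : PowerSeries.coeff n (f ^ Fintype.card F) =
        PowerSeries.coeff n (((PowerSeries.trunc (n + 1) f) : PowerSeries F) ^ Fintype.card F) := by
      have := congrArg (fun g => g.coeff n)
        (PowerSeries.trunc_trunc_pow f (n + 1) (Fintype.card F))
      simp only [PowerSeries.coeff_trunc, Nat.lt_succ_self, if_true] at this
      exact this.symm
    rw [e1, ← Polynomial.coe_pow, Polynomial.coeff_coe, ← FiniteField.expand_card,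
      Polynomial.coeff_expand (Nat.pos_of_ne_zero h0), PowerSeries.coeff_expand,
      PowerSeries.coeff_trunc]
    split_ifs with h2 h3
    · rfl
    · exact absurd (Nat.lt_succ_of_le (Nat.div_le_self _ _)) h3
    · rfl
  rw [h1, PowerSeries.coeff_expand]

variable (M : F[X])

/-- The map from polynomials over power series to power series over `F[T]/M`. -/
noncomputable def SOL_rho : (PowerSeries F)[X] →+* PowerSeries (AdjoinRoot M) :=
  eval₂RingHom (PowerSeries.map (algebraMap F (AdjoinRoot M)))
    (PowerSeries.C (AdjoinRoot.root M))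

theorem SOL_rho_coeff (G : (PowerSeries F)[X]) (n : ℕ) :
    PowerSeries.coeff n (SOL_rho M G) =
      G.sum fun i a => algebraMap F (AdjoinRoot M) (PowerSeries.coeff n a) *
        AdjoinRoot.root M ^ i := by
  unfold SOL_rho
  rw [coe_eval₂RingHom, eval₂_eq_sum, Polynomial.sum_def, Polynomial.sum_def, map_sum]
  refine Finset.sum_congr rfl fun i _ => ?_
  rw [← map_pow, PowerSeries.coeff_mul_C, PowerSeries.coeff_map]

theorem SOL_rho_coeff' (G : (PowerSeries F)[X]) (m : ℕ) (hm : G.natDegree < m) (n : ℕ) :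
    PowerSeries.coeff n (SOL_rho M G) =
      AdjoinRoot.mk M (∑ i ∈ Finset.range m, C (PowerSeries.coeff n (G.coeff i)) * X ^ i) := by
  rw [SOL_rho_coeff, Polynomial.sum_over_range' G (by simp) m hm, map_sum]
  refine Finset.sum_congr rfl fun i _ => ?_
  rw [map_mul, map_pow, AdjoinRoot.mk_X, AdjoinRoot.mk_C]
  rfl

theorem SOL_ker (hM : M.Monic) (hm : 1 ≤ M.natDegree) (G : (PowerSeries F)[X])
    (h : SOL_rho M G = 0) : M.map (algebraMap F (PowerSeries F)) ∣ G := by
  set M' := M.map (algebraMap F (PowerSeries F)) with hM'def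
  have hM' : M'.Monic := hM.map _
  have hdM' : M'.natDegree = M.natDegree := hM.natDegree_map _
  have hρM : SOL_rho M M' = 0 := by
    have e1 : (PowerSeries.map (algebraMap F (AdjoinRoot M))).comp (algebraMap F (PowerSeries F)) =
        (PowerSeries.C : AdjoinRoot M →+* PowerSeries (AdjoinRoot M)).comp
          (algebraMap F (AdjoinRoot M)) := by
      ext a : 1
      rw [RingHom.comp_apply, RingHom.comp_apply]
      exact PowerSeries.map_C _ a
    unfold SOL_rho
    rw [coe_eval₂RingHom, hM'def, eval₂_map, e1, ← hom_eval₂, AdjoinRoot.algebraMap_eq,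
      AdjoinRoot.eval₂_root, map_zero]
  have hr : SOL_rho M (G %ₘ M') = 0 := by
    have := congrArg (SOL_rho M) (modByMonic_add_div G M')
    rw [map_add, map_mul, hρM, zero_mul, add_zero, h] at this
    exact this
  have hdeg : (G %ₘ M').natDegree < M.natDegree := by
    rw [← hdM']
    exact natDegree_modByMonic_lt _ hM' (by intro h1; rw [h1] at hdM'; simp at hdM'; omega)
  rw [← modByMonic_eq_zero_iff_dvd hM']
  ext i n
  rcases lt_or_ge i M.natDegree with hi | hi
  · have h1 := congrArg (PowerSeries.coeff n) hr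
    rw [SOL_rho_coeff' M _ M.natDegree hdeg n, map_zero, AdjoinRoot.mk_eq_zero] at h1
    have h2 := eq_zero_of_dvd_of_degree_lt h1 (by
      rw [degree_eq_natDegree hM.ne_zero]
      refine (degree_sum_le _ _).trans_lt ?_
      rw [Finset.sup_lt_iff (WithBot.bot_lt_coe _)]
      intro b hb
      exact (degree_C_mul_X_pow_le _ _).trans_lt (by exact_mod_cast Finset.mem_range.1 hb))
    have h3 := congrArg (fun p => coeff p i) h2
    simp only [finsetSum_coeff, coeff_C_mul_X_pow, coeff_zero] at h3
    rw [Finset.sum_ite_eq] at h3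
    simpa [hi] using h3
  · rw [coeff_eq_zero_of_natDegree_lt (lt_of_lt_of_le hdeg hi)]
    simp

theorem SOL_surj (hM : M.Monic) (hm : 1 ≤ M.natDegree) (Z : PowerSeries (AdjoinRoot M)) :
    ∃ G : (PowerSeries F)[X], G.natDegree < M.natDegree ∧ SOL_rho M G = Z := by
  classical
  set G : (PowerSeries F)[X] := ∑ i ∈ Finset.range M.natDegree,
    C (PowerSeries.mk fun n => (AdjoinRoot.modByMonicHom hM (PowerSeries.coeff n Z)).coeff i) *
      X ^ i with hG
  have hdeg : G.natDegree < M.natDegree := by
    rcases eq_or_ne G 0 with hG0 | hG0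
    · rw [hG0, natDegree_zero]; omega
    rw [natDegree_lt_iff_degree_lt hG0]
    refine (degree_sum_le _ _).trans_lt ?_
    rw [Finset.sup_lt_iff (WithBot.bot_lt_coe _)]
    intro b hb
    exact (degree_C_mul_X_pow_le _ _).trans_lt (by exact_mod_cast Finset.mem_range.1 hb)
  have hco : ∀ i, i < M.natDegree → ∀ n, PowerSeries.coeff n (G.coeff i) =
      (AdjoinRoot.modByMonicHom hM (PowerSeries.coeff n Z)).coeff i := by
    intro i hi n
    rw [hG, finsetSum_coeff]
    simp only [coeff_C_mul_X_pow]
    rw [Finset.sum_ite_eq, if_pos (Finset.mem_range.2 hi), PowerSeries.coeff_mk]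
  refine ⟨G, hdeg, ?_⟩
  ext n
  rw [SOL_rho_coeff' M G M.natDegree hdeg n]
  have h1 : ∀ f : F[X], f.natDegree < M.natDegree →
      ∑ i ∈ Finset.range M.natDegree, C (f.coeff i) * X ^ i = f := by
    intro f hf
    exact (f.as_sum_range_C_mul_X_pow' hf).symm
  have h2 : (AdjoinRoot.modByMonicHom hM (PowerSeries.coeff n Z)).natDegree < M.natDegree := by
    obtain ⟨g, hg⟩ := AdjoinRoot.mk_surjective (PowerSeries.coeff n Z)
    rw [← hg, AdjoinRoot.modByMonicHom_mk]
    exact natDegree_modByMonic_lt _ hM (by intro h1; rw [h1] at hm; simp at hm)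
  rw [Finset.sum_congr rfl fun i hi => by rw [hco i (Finset.mem_range.1 hi) n], h1 _ h2,
    AdjoinRoot.mk_leftInverse hM]

theorem SOL_rho_tw (G : (PowerSeries F)[X])
    (hG : G.natDegree < M.natDegree) (n : ℕ) :
    PowerSeries.coeff n (SOL_rho M (tw F G)) =
      if Fintype.card F ∣ n then PowerSeries.coeff (n / Fintype.card F) (SOL_rho M G) else 0 := by
  have hc : ∀ i, (tw F G).coeff i = G.coeff i ^ Fintype.card F := by
    intro i
    unfold tw
    rw [coeff_map]
    rfl
  have hd : (tw F G).natDegree < M.natDegree := lt_of_le_of_lt (natDegree_map_le) hG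
  rw [SOL_rho_coeff' M _ M.natDegree hd n]
  split_ifs with h
  · rw [SOL_rho_coeff' M _ M.natDegree hG]
    simp only [hc, SOL_pow, if_pos h]
  · simp only [hc, SOL_pow, if_neg h]
    simp

/-- The coefficients of the solution. -/
noncomputable def SOL_z : ℕ → AdjoinRoot M
  | 0 => 1
  | (n + 1) =>
      have h1 : 1 < Fintype.card F := Fintype.one_lt_card
      have h2 : (n + 1) / Fintype.card F < n + 1 := Nat.div_lt_self (Nat.succ_pos n) h1
      have h3 : n + 1 - (Fintype.card F - 1) < n + 1 := by omega
      (if Fintype.card F ∣ n + 1 then SOL_z ((n + 1) / Fintype.card F) else 0) -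
      (if Fintype.card F - 1 ≤ n + 1 then
        AdjoinRoot.root M * SOL_z (n + 1 - (Fintype.card F - 1)) else 0)
termination_by n => n

theorem SOL_z_eq (n : ℕ) :
    (if Fintype.card F ∣ n then SOL_z M (n / Fintype.card F) else 0) = SOL_z M n +
      (if Fintype.card F - 1 ≤ n then
        AdjoinRoot.root M * SOL_z M (n - (Fintype.card F - 1)) else 0) := by
  have h1 := Fintype.one_lt_card (α := F)
  cases n with
  | zero =>
    rw [if_neg (by omega : ¬ Fintype.card F - 1 ≤ 0)]
    simp
  | succ n =>
    conv_rhs => rw [SOL_z]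
    ring

theorem SOL_main (hM : M.Monic) (hm : 1 ≤ M.natDegree) : ∃ G : (PowerSeries F)[X],
    G.natDegree < M.natDegree ∧ IsCoprime G (M.map (algebraMap F (PowerSeries F))) ∧
    M.map (algebraMap F (PowerSeries F)) ∣
      tw F G - (1 + X * C (PowerSeries.X ^ (Fintype.card F - 1))) * G := by
  obtain ⟨G, hG, hGZ⟩ := SOL_surj M hM hm (PowerSeries.mk (SOL_z M))
  refine ⟨G, hG, ?_, ?_⟩
  · have hu : IsUnit (PowerSeries.mk (SOL_z M)) := by
      rw [PowerSeries.isUnit_iff_constantCoeff, ← PowerSeries.coeff_zero_eq_constantCoeff_apply,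
        PowerSeries.coeff_mk, SOL_z]
      exact isUnit_one
    obtain ⟨Z', hZ'⟩ := hu.exists_right_inv
    obtain ⟨G', hG', hGZ'⟩ := SOL_surj M hM hm Z'
    have h1 : SOL_rho M (G * G' - 1) = 0 := by
      rw [map_sub, map_mul, hGZ, hGZ', hZ', map_one, sub_self]
    obtain ⟨E, hE⟩ := SOL_ker M hM hm _ h1
    refine ⟨G', -E, ?_⟩
    linear_combination hE
  · apply SOL_ker M hM hm
    rw [map_sub, map_mul, map_add, map_one, map_mul, hGZ]
    have h1 : SOL_rho M X = PowerSeries.C (AdjoinRoot.root M) := by
      unfold SOL_rho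
      rw [coe_eval₂RingHom, eval₂_X]
    have h2 : SOL_rho M (C (PowerSeries.X ^ (Fintype.card F - 1))) =
        PowerSeries.X ^ (Fintype.card F - 1) := by
      unfold SOL_rho
      rw [coe_eval₂RingHom, eval₂_C, map_pow, PowerSeries.map_X]
    rw [h1, h2]
    ext n
    rw [map_sub, SOL_rho_tw M G hG, hGZ, PowerSeries.coeff_mk, SOL_z_eq M n, add_mul, one_mul,
      map_add, PowerSeries.coeff_mk, mul_assoc, PowerSeries.coeff_C_mul,
      PowerSeries.coeff_X_pow_mul', map_zero]
    split_ifs with h
    · rw [PowerSeries.coeff_mk]; ring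
    · ring

end SOLser

section SOLhahn

variable {k : Type} [Field k]

theorem SOL_ww_mul (a b : ℤ) : ww k a * ww k b = ww k (a + b) := by
  have := HahnSeries.single_mul_single (Γ := ℤ) (R := k) (a := a) (b := b) (r := 1) (s := 1)
  rw [one_mul] at this
  exact this

theorem SOL_ww_zero : ww k 0 = 1 := rfl

theorem SOL_ww_pow (a : ℤ) (n : ℕ) : ww k a ^ n = ww k (n * a) := by
  induction n with
  | zero => rw [pow_zero, Nat.cast_zero, zero_mul, SOL_ww_zero]
  | succ n ih =>
    rw [pow_succ, ih, SOL_ww_mul]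
    congr 1
    push_cast
    ring

variable (F : Type) [Field F] [Fintype F] [Algebra F k]

variable (k) in
/-- Power series over `F` as Laurent series over `k`. -/
noncomputable def SOL_j : PowerSeries F →+* EE k :=
  (HahnSeries.ofPowerSeries ℤ k).comp (PowerSeries.map (algebraMap F k))

theorem SOL_j_X : SOL_j k F PowerSeries.X = ww k 1 := by
  have : SOL_j k F PowerSeries.X =
    HahnSeries.ofPowerSeries ℤ k (PowerSeries.map (algebraMap F k) PowerSeries.X) := rfl
  rw [this, PowerSeries.map_X, HahnSeries.ofPowerSeries_X]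
  rfl

theorem SOL_j_C (a : F) : SOL_j k F (algebraMap F (PowerSeries F) a) = algebraMap F (EE k) a := by
  have : SOL_j k F (algebraMap F (PowerSeries F) a) =
    HahnSeries.ofPowerSeries ℤ k (PowerSeries.map (algebraMap F k) (PowerSeries.C a)) := rfl
  rw [this, PowerSeries.map_C, HahnSeries.ofPowerSeries_C]
  rfl

theorem SOL_j_comp : (SOL_j k F).comp (algebraMap F (PowerSeries F)) = algebraMap F (EE k) := by
  apply RingHom.ext
  intro a
  rw [RingHom.comp_apply]
  exact SOL_j_C F a

theorem SOL_j_neg (f : PowerSeries F) (n : ℤ) (hn : n < 0) : cf (SOL_j k F f) n = 0 := by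
  have : cf (SOL_j k F f) n =
    (HahnSeries.ofPowerSeries ℤ k (PowerSeries.map (algebraMap F k) f)).coeff n := rfl
  rw [this, HahnSeries.ofPowerSeries_apply]
  apply HahnSeries.embDomain_of_notMem_range
  rintro ⟨m, hm⟩
  have : (m : ℤ) = n := hm
  omega

end SOLhahn

/-- SOL: the solution exists. -/
theorem s_SOL (F k : Type) [Field F] [Fintype F] [Field k] [Algebra F k] [IsAlgClosed k]
    [Algebra.IsAlgebraic F k] : S_SOL F k := by
  intro M hM hm
  obtain ⟨G, hG, hcop, hdvd⟩ := SOL_main M hM hm
  have hq := Fintype.one_lt_card (α := F)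
  have hMj : (M.map (algebraMap F (PowerSeries F))).map (SOL_j k F) =
      M.map (algebraMap F (EE k)) := by
    have e : (SOL_j k F).comp (algebraMap F (PowerSeries F)) = algebraMap F (EE k) :=
      SOL_j_comp F
    rw [Polynomial.map_map, e]
  have hu : IsUnit (C (ww k (-1)) : (EE k)[X]) := by
    have h1 : ww k (-1) * ww k 1 = 1 := by rw [SOL_ww_mul, neg_add_cancel, SOL_ww_zero]
    exact (IsUnit.of_mul_eq_one _ h1).map C
  have htw : tw F (C (ww k (-1)) * G.map (SOL_j k F)) =
      C (ww k (-(Fintype.card F : ℤ))) * (tw F G).map (SOL_j k F) := by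
    unfold tw
    rw [Polynomial.map_mul, map_C]
    congr 1
    · congr 1
      have : (FiniteField.frobeniusAlgHom F (EE k)).toRingHom (ww k (-1)) =
        ww k (-1) ^ Fintype.card F := rfl
      rw [this, SOL_ww_pow]
      congr 1
      ring
    · ext i : 1
      rw [coeff_map, coeff_map, coeff_map, coeff_map]
      exact (map_pow (SOL_j k F) (G.coeff i) (Fintype.card F)).symm
  refine ⟨C (ww k (-1)) * G.map (SOL_j k F), ⟨⟨?_, ?_, ?_⟩, ?_⟩⟩
  · rw [degree_C_mul (by
      intro h0
      rw [h0, C_0] at hu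
      exact not_isUnit_zero hu)]
    rw [degree_eq_natDegree hM.ne_zero]
    refine lt_of_le_of_lt (degree_map_le) ?_
    exact lt_of_le_of_lt degree_le_natDegree (by exact_mod_cast hG)
  · rw [isCoprime_mul_unit_left_left hu, ← hMj]
    exact hcop.map (mapRingHom (SOL_j k F))
  · have h1 := _root_.map_dvd (mapRingHom (SOL_j k F)) hdvd
    rw [coe_mapRingHom, hMj] at h1
    have h2 : tw F (C (ww k (-1)) * G.map (SOL_j k F)) -
        (X - C (xx F k)) * (C (ww k (-1)) * G.map (SOL_j k F)) =
        C (ww k (-(Fintype.card F : ℤ))) *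
        Polynomial.map (SOL_j k F)
          (tw F G - (1 + X * C (PowerSeries.X ^ (Fintype.card F - 1))) * G) := by
      rw [htw]
      unfold xx
      rw [Polynomial.map_sub, Polynomial.map_mul, Polynomial.map_add, Polynomial.map_one,
        Polynomial.map_mul, map_X, map_C, map_pow, SOL_j_X, SOL_ww_pow]
      have e1 : (C (ww k (-1)) : (EE k)[X]) = C (ww k (-(Fintype.card F : ℤ))) *
          C (ww k (((Fintype.card F - 1 : ℕ) : ℤ) * 1)) := by
        rw [← C_mul, SOL_ww_mul]
        congr 2
        push_cast [hq.le]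
        ring
      have e2 : (C (ww k (1 - (Fintype.card F : ℤ))) : (EE k)[X]) * C (ww k (-1)) =
          C (ww k (-(Fintype.card F : ℤ))) := by
        rw [← C_mul, SOL_ww_mul]
        congr 2
        ring
      rw [C_neg]
      linear_combination (-(X * G.map (SOL_j k F))) * e1 - (G.map (SOL_j k F)) * e2
    rw [h2]
    exact Dvd.dvd.mul_left h1 _
  · intro i hi
    rw [coeff_C_mul, coeff_map] at hi ⊢
    have h1 : SOL_j k F (G.coeff i) ≠ 0 := right_ne_zero_of_mul hi
    have h2 : ww k (-1) ≠ 0 := left_ne_zero_of_mul hi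
    rw [od_mul h2 h1, od_ww]
    have := le_od h1 (n := 0) (fun j hj => SOL_j_neg F _ j hj)
    omega

end Pool.RN
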